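import Mathlib
import Pool.Agent.H102R3.SKS

set_option autoImplicit false
open MeasureTheory ProbabilityTheory Set

namespace Pool.H92.SKChaos
open Pool.H102.SK

section
variable {ι V : Type} [Fintype ι] [Fintype V] [Nonempty V]

theorem Zf_pos (a : V → ι → ℝ) (d : V → ℝ) (x : ι → ℝ) : 0 < Zf a d x :=
  Finset.sum_pos (fun _ _ => Real.exp_pos _) Finset.univ_nonempty

omit [Nonempty V] in
theorem Zf_meas (a : V → ι → ℝ) (d : V → ℝ) : Measurable (Zf a d) := by
  unfold Zf
  fun_prop

omit [Nonempty V] in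
theorem Ff_meas (a : V → ι → ℝ) (d : V → ℝ) : Measurable (Ff a d) := by
  unfold Ff
  exact Real.measurable_log.comp (Zf_meas a d)

/-- linear growth -/
theorem Ff_bound (a : V → ι → ℝ) (d : V → ℝ) (x : ι → ℝ) :
    |Ff a d x| ≤ Real.log (Fintype.card V) + ∑ v, (|d v| + ∑ i, |a v i| * |x i|) := by
  set B := ∑ v, (|d v| + ∑ i, |a v i| * |x i|) with hB
  have hu : ∀ v, |d v + ∑ i, a v i * x i| ≤ B := by
    intro v
    have h1 : |d v + ∑ i, a v i * x i| ≤ |d v| + ∑ i, |a v i| * |x i| := by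
      refine (abs_add_le _ _).trans (add_le_add_right ?_ _)
      refine (Finset.abs_sum_le_sum_abs _ _).trans (Finset.sum_le_sum fun i _ => ?_)
      rw [abs_mul]
    refine h1.trans ?_
    exact Finset.single_le_sum (f := fun v => |d v| + ∑ i, |a v i| * |x i|)
      (fun v _ => by positivity) (Finset.mem_univ v)
  have hcard : (1 : ℝ) ≤ Fintype.card V := by
    exact_mod_cast Fintype.card_pos
  have hlogc : 0 ≤ Real.log (Fintype.card V) := Real.log_nonneg hcard
  have hup : Zf a d x ≤ Fintype.card V * Real.exp B := by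
    unfold Zf
    calc _ ≤ ∑ _v : V, Real.exp B := Finset.sum_le_sum fun v _ =>
          Real.exp_le_exp.2 ((le_abs_self _).trans (hu v))
      _ = _ := by simp
  have hlow : Real.exp (-B) ≤ Zf a d x := by
    obtain ⟨v0⟩ := ‹Nonempty V›
    refine le_trans (Real.exp_le_exp.2 (neg_le_of_abs_le (hu v0))) ?_
    unfold Zf
    exact Finset.single_le_sum (f := fun v => Real.exp (d v + ∑ i, a v i * x i))
      (fun v _ => (Real.exp_pos _).le) (Finset.mem_univ v0)
  have hZ := Zf_pos a d x
  unfold Ff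
  rw [abs_le]
  constructor
  · have := Real.log_le_log (Real.exp_pos _) hlow
    rw [Real.log_exp] at this
    linarith
  · have := Real.log_le_log hZ hup
    rw [Real.log_mul (by positivity) (Real.exp_pos _).ne', Real.log_exp] at this
    exact this

theorem int_coord (i : ι) : Integrable (fun x : ι → ℝ => x i) (G ι) := by
  have h : Integrable (id : ℝ → ℝ) (gaussianReal 0 1) := (memLp_id_gaussianReal 1).integrable le_rfl
  exact (measurePreserving_eval (fun _ : ι => gaussianReal 0 1) i).integrable_comp_of_integrable h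

theorem Ff_int (a : V → ι → ℝ) (d : V → ℝ) : Integrable (Ff a d) (G ι) := by
  have h : Integrable (fun x : ι → ℝ => Real.log (Fintype.card V) +
      ∑ v, (|d v| + ∑ i, |a v i| * |x i|)) (G ι) := by
    refine (integrable_const _).add (integrable_finsetSum _ fun v _ =>
      (integrable_const _).add (integrable_finsetSum _ fun i _ => ?_))
    exact ((int_coord i).abs).const_mul _
  refine h.mono (Ff_meas a d).aestronglyMeasurable (Filter.Eventually.of_forall fun x => ?_)
  rw [Real.norm_eq_abs, Real.norm_eq_abs]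
  exact (Ff_bound a d x).trans (le_abs_self _)

theorem pf_nonneg (a : V → ι → ℝ) (d : V → ℝ) (x : ι → ℝ) (v : V) : 0 ≤ pf a d x v :=
  div_nonneg (Real.exp_pos _).le (Zf_pos a d x).le

theorem pf_sum (a : V → ι → ℝ) (d : V → ℝ) (x : ι → ℝ) : ∑ v, pf a d x v = 1 := by
  unfold pf
  rw [← Finset.sum_div]
  exact div_self (Zf_pos a d x).ne'

theorem pf_le_one (a : V → ι → ℝ) (d : V → ℝ) (x : ι → ℝ) (v : V) : pf a d x v ≤ 1 := by
  rw [← pf_sum a d x]
  exact Finset.single_le_sum (f := pf a d x) (fun v _ => pf_nonneg a d x v) (Finset.mem_univ v)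

omit [Nonempty V] in
theorem pf_meas (a : V → ι → ℝ) (d : V → ℝ) (v : V) : Measurable fun x => pf a d x v := by
  unfold pf
  exact Measurable.div (by fun_prop) (Zf_meas a d)

/-- Jensen for the two-copy system -/
theorem jensen (a : V → ι → ℝ) (θ μ : ℝ) (q : V → V → ℝ) (x z : ι → ℝ) :
    Ff a (fun _ => 0) x + Ff a (fun _ => 0) (fun i => Real.sin θ * x i + Real.cos θ * z i) +
      μ * ∑ s, ∑ t, pf a (fun _ => 0) x s *
        pf a (fun _ => 0) (fun i => Real.sin θ * x i + Real.cos θ * z i) t * q s t ≤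
    Ff (cp a θ) (fun v => μ * q v.1 v.2) (Sum.elim x z) := by
  set y : ι → ℝ := fun i => Real.sin θ * x i + Real.cos θ * z i with hy
  set p := pf a (fun _ => 0) x with hp
  set p' := pf a (fun _ => 0) y with hp'
  set X := Zf a (fun _ => 0) x with hX
  set Y := Zf a (fun _ => 0) y with hY
  have hXp : 0 < X := Zf_pos _ _ _
  have hYp : 0 < Y := Zf_pos _ _ _
  have hZ : Zf (cp a θ) (fun v => μ * q v.1 v.2) (Sum.elim x z) =
      X * Y * ∑ s, ∑ t, p s * p' t * Real.exp (μ * q s t) := by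
    unfold Zf
    rw [Fintype.sum_prod_type, Finset.mul_sum]
    refine Finset.sum_congr rfl fun s _ => ?_
    rw [Finset.mul_sum]
    refine Finset.sum_congr rfl fun t _ => ?_
    simp only [hp, hp', pf]
    rw [← hX, ← hY]
    have e : ∑ i, cp a θ (s, t) i * Sum.elim x z i = ∑ i, a s i * x i + ∑ i, a t i * y i := by
      rw [Fintype.sum_sum_type, ← Finset.sum_add_distrib, ← Finset.sum_add_distrib]
      refine Finset.sum_congr rfl fun i _ => ?_
      simp only [cp, Sum.elim_inl, Sum.elim_inr, hy]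
      ring
    rw [e, Real.exp_add, Real.exp_add, zero_add, zero_add]
    field_simp
  have hsum : ∑ s, ∑ t, p s * p' t = 1 := by
    have : ∑ s, ∑ t, p s * p' t = (∑ s, p s) * ∑ t, p' t := by
      rw [Finset.sum_mul_sum]
    rw [this, hp, hp', pf_sum, pf_sum, mul_one]
  have hJ : Real.exp (μ * ∑ s, ∑ t, p s * p' t * q s t) ≤
      ∑ s, ∑ t, p s * p' t * Real.exp (μ * q s t) := by
    set m := μ * ∑ s, ∑ t, p s * p' t * q s t with hm
    have h1 : ∀ s t, p s * p' t * (Real.exp m * (1 + (μ * q s t - m))) ≤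
        p s * p' t * Real.exp (μ * q s t) := by
      intro s t
      refine mul_le_mul_of_nonneg_left ?_ (mul_nonneg (pf_nonneg _ _ _ _) (pf_nonneg _ _ _ _))
      have := Real.add_one_le_exp (μ * q s t - m)
      calc Real.exp m * (1 + (μ * q s t - m)) ≤ Real.exp m * Real.exp (μ * q s t - m) := by
            gcongr; linarith
        _ = Real.exp (μ * q s t) := by rw [← Real.exp_add]; congr 1; ring
    refine le_trans (le_of_eq ?_) (Finset.sum_le_sum fun s _ => Finset.sum_le_sum fun t _ => h1 s t)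
    have h2 : ∑ s, ∑ t, p s * p' t * (Real.exp m * (1 + (μ * q s t - m))) =
        Real.exp m * ((1 - m) * (∑ s, ∑ t, p s * p' t) + μ * ∑ s, ∑ t, p s * p' t * q s t) := by
      simp only [Finset.mul_sum, ← Finset.sum_add_distrib]
      refine Finset.sum_congr rfl fun s _ => Finset.sum_congr rfl fun t _ => ?_
      ring
    rw [h2, hsum, ← hm]
    ring
  unfold Ff
  rw [hZ, ← hX, ← hY]
  have h3 := Real.log_le_log (Real.exp_pos _) hJ
  rw [Real.log_exp] at h3
  have h4 : 0 < ∑ s, ∑ t, p s * p' t * Real.exp (μ * q s t) := lt_of_lt_of_le (Real.exp_pos _) hJ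
  rw [Real.log_mul (by positivity) h4.ne', Real.log_mul hXp.ne' hYp.ne']
  linarith

/-- integration over the two copies -/
theorem int_sum (f : (ι ⊕ ι → ℝ) → ℝ) :
    ∫ p, f (Sum.elim p.1 p.2) ∂((G ι).prod (G ι)) = ∫ x, f x ∂(G (ι ⊕ ι)) := by
  have h := measurePreserving_sumPiEquivProdPi_symm (ι := ι) (ι' := ι)
    (X := fun _ => ℝ) (fun _ => gaussianReal 0 1)
  have h2 := h.integral_comp (MeasurableEquiv.sumPiEquivProdPi (fun _ : ι ⊕ ι => ℝ)).symm.measurableEmbedding f
  rw [← h2]
  refine integral_congr_ae (Filter.Eventually.of_forall fun p => ?_)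
  rfl

theorem integrable_sum (f : (ι ⊕ ι → ℝ) → ℝ) (hf : Integrable f (G (ι ⊕ ι))) :
    Integrable (fun p : (ι → ℝ) × (ι → ℝ) => f (Sum.elim p.1 p.2)) ((G ι).prod (G ι)) := by
  have h := measurePreserving_sumPiEquivProdPi_symm (ι := ι) (ι' := ι)
    (X := fun _ => ℝ) (fun _ => gaussianReal 0 1)
  have h2 := h.integrable_comp_of_integrable hf
  refine h2.congr (Filter.Eventually.of_forall fun p => ?_)
  rfl

/-- the correlated copy has the same law -/
theorem mp_rot (hR : TRot) (θ : ℝ) :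
    MeasurePreserving (fun p : (ι → ℝ) × (ι → ℝ) =>
      (fun i => Real.sin θ * p.1 i + Real.cos θ * p.2 i : ι → ℝ)) ((G ι).prod (G ι)) (G ι) := by
  have h := hR ι (Real.pi / 2 - θ)
  have h2 := (measurePreserving_fst (μ := G ι) (ν := G ι)).comp h
  simp only [Real.cos_pi_div_two_sub, Real.sin_pi_div_two_sub] at h2
  exact h2

/-- lower bound of the two-copy free energy -/
theorem lower (hR : TRot) (a : V → ι → ℝ) (θ μ : ℝ) (q : V → V → ℝ) :
    2 * ∫ x, Ff a (fun _ => 0) x ∂(G ι) +
      μ * ∫ p, ∑ s, ∑ t, pf a (fun _ => 0) (p : (ι → ℝ) × (ι → ℝ)).1 s *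
        pf a (fun _ => 0) (fun i => Real.sin θ * p.1 i + Real.cos θ * p.2 i) t * q s t
        ∂((G ι).prod (G ι)) ≤
    ∫ x, Ff (cp a θ) (fun v => μ * q v.1 v.2) x ∂(G (ι ⊕ ι)) := by
  have hF := Ff_int a (fun _ => 0)
  have hF1 : Integrable (fun p : (ι → ℝ) × (ι → ℝ) => Ff a (fun _ => 0) p.1)
      ((G ι).prod (G ι)) :=
    (measurePreserving_fst (μ := G ι) (ν := G ι)).integrable_comp_of_integrable hF
  have hF2 : Integrable (fun p : (ι → ℝ) × (ι → ℝ) => Ff a (fun _ => 0)
      (fun i => Real.sin θ * p.1 i + Real.cos θ * p.2 i)) ((G ι).prod (G ι)) :=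
    (mp_rot hR θ).integrable_comp_of_integrable hF
  have hi1 : ∫ p, Ff a (fun _ => 0) (p : (ι → ℝ) × (ι → ℝ)).1 ∂((G ι).prod (G ι)) =
      ∫ x, Ff a (fun _ => 0) x ∂(G ι) := by
    have h := integral_map (μ := (G ι).prod (G ι)) (φ := Prod.fst) (f := Ff a (fun _ => 0))
      measurable_fst.aemeasurable (Ff_meas a _).aestronglyMeasurable
    rw [← h, (measurePreserving_fst (μ := G ι) (ν := G ι)).map_eq]
  have hi2 : ∫ p, Ff a (fun _ => 0)
      (fun i => Real.sin θ * (p : (ι → ℝ) × (ι → ℝ)).1 i + Real.cos θ * p.2 i)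
      ∂((G ι).prod (G ι)) = ∫ x, Ff a (fun _ => 0) x ∂(G ι) := by
    have h := integral_map (μ := (G ι).prod (G ι)) (φ := fun p : (ι → ℝ) × (ι → ℝ) =>
      (fun i => Real.sin θ * p.1 i + Real.cos θ * p.2 i : ι → ℝ)) (f := Ff a (fun _ => 0))
      (mp_rot hR θ).measurable.aemeasurable (Ff_meas a _).aestronglyMeasurable
    rw [← h, (mp_rot hR θ).map_eq]
  have hQ : Integrable (fun p : (ι → ℝ) × (ι → ℝ) => ∑ s, ∑ t, pf a (fun _ => 0) p.1 s *
        pf a (fun _ => 0) (fun i => Real.sin θ * p.1 i + Real.cos θ * p.2 i) t * q s t)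
        ((G ι).prod (G ι)) := by
    refine integrable_finsetSum _ fun s _ => integrable_finsetSum _ fun t _ => ?_
    refine Integrable.mul_const ?_ _
    have hm : Measurable fun p : (ι → ℝ) × (ι → ℝ) => pf a (fun _ => 0) p.1 s *
        pf a (fun _ => 0) (fun i => Real.sin θ * p.1 i + Real.cos θ * p.2 i) t :=
      Measurable.mul ((pf_meas a (fun _ => 0) s).comp measurable_fst)
        ((pf_meas a (fun _ => 0) t).comp (mp_rot hR θ).measurable)
    refine Integrable.of_bound hm.aestronglyMeasurable 1 (Filter.Eventually.of_forall fun p => ?_)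
    rw [Real.norm_eq_abs, abs_of_nonneg (mul_nonneg (pf_nonneg _ _ _ _) (pf_nonneg _ _ _ _))]
    exact mul_le_one₀ (pf_le_one _ _ _ _) (pf_nonneg _ _ _ _) (pf_le_one _ _ _ _)
  have hC := integrable_sum (Ff (cp a θ) (fun v => μ * q v.1 v.2)) (Ff_int _ _)
  rw [← int_sum]
  have h1 := integral_mono (μ := (G ι).prod (G ι)) ((hF1.add hF2).add (hQ.const_mul μ)) hC
    (fun p => jensen a θ μ q p.1 p.2)
  refine le_trans (le_of_eq ?_) h1
  rw [integral_add' (hF1.add hF2) (hQ.const_mul μ), integral_add' hF1 hF2, hi1, hi2,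
    integral_const_mul]
  ring

end

theorem cos_sq_sqrt (θ : ℝ) (h : 0 ≤ Real.cos θ) : Real.sqrt (1 - Real.sin θ ^ 2) = Real.cos θ := by
  rw [← Real.cos_sq', Real.sqrt_sq h]

theorem chaos (hM : TMono) (hI : TIndep) (hN : TInner) (hR : TRot) : TChaos := by
  intro β hβ
  obtain ⟨C, hC, hI⟩ := hI
  refine ⟨4 * β ^ 2 * C, min 1 (1 / (4 * β ^ 2)), by positivity, ?_⟩
  intro N hNpos r hr0 hrr hr1
  have : Nonempty (Fin N → Fin 2) := ⟨fun _ => 0⟩
  have hr2 : r ≤ 1 / (4 * β ^ 2) := hrr.trans (min_le_right _ _)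
  set θ := Real.arcsin r with hθ
  have hθ0 : 0 ≤ θ := Real.arcsin_nonneg.2 hr0
  have hθ1 : θ ≤ Real.pi / 2 := Real.arcsin_le_pi_div_two r
  have hs : Real.sin θ = r := Real.sin_arcsin (by linarith) hr1
  have hc : 0 ≤ Real.cos θ := Real.cos_arcsin_nonneg r
  have hQ0 : ∀ s t, 0 ≤ Q N s t := fun s t => by unfold Q; positivity
  set a := skA β N with ha
  -- monotonicity
  have key : ∫ x, Ff (cp a θ) (fun v => (1 / 4 - β ^ 2 / 2 * Real.sin θ) * Q N v.1 v.2) x
      ∂(G ((Fin N × Fin N) ⊕ (Fin N × Fin N))) ≤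
      ∫ x, Ff (cp a 0) (fun v => (1 / 4) * Q N v.1 v.2) x
      ∂(G ((Fin N × Fin N) ⊕ (Fin N × Fin N))) := by
    set A := ∑ v, ∑ i, |a v i| with hA
    set D := ∑ v : (Fin N → Fin 2) × (Fin N → Fin 2), |Q N v.1 v.2| with hD
    have hA0 : 0 ≤ A := by positivity
    have hD0 : 0 ≤ D := by positivity
    have hAb : ∀ v i, |a v i| ≤ A := by
      intro v i
      refine (Finset.single_le_sum (f := fun i => |a v i|) (fun _ _ => abs_nonneg _)
        (Finset.mem_univ i)).trans ?_
      exact Finset.single_le_sum (f := fun v => ∑ i, |a v i|) (fun _ _ => by positivity)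
        (Finset.mem_univ v)
    have hDb : ∀ v : (Fin N → Fin 2) × (Fin N → Fin 2), |Q N v.1 v.2| ≤ D := by
      intro v
      exact Finset.single_le_sum (f := fun v : (Fin N → Fin 2) × (Fin N → Fin 2) =>
        |Q N v.1 v.2|) (fun _ _ => abs_nonneg _) (Finset.mem_univ v)
    have hM' := hM ((Fin N × Fin N) ⊕ (Fin N × Fin N)) ((Fin N → Fin 2) × (Fin N → Fin 2))
      (fun t => cp a t)
      (fun t v => Sum.elim (fun i => Real.cos t * a v.2 i) (fun i => -Real.sin t * a v.2 i))
      (fun t v => (1 / 4 - β ^ 2 / 2 * Real.sin t) * Q N v.1 v.2)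
      (fun t v => (-(β ^ 2 / 2 * Real.cos t)) * Q N v.1 v.2)
      (2 * A + (1 / 4 + β ^ 2 / 2) * D) θ hθ0 ?_ ?_ ?_ ?_ ?_ ?_ ?_
    · simpa using hM'
    · intro t v i
      rcases i with i | i
      · simp only [cp, Sum.elim_inl]
        simpa using ((Real.hasDerivAt_sin t).mul_const (a v.2 i)).const_add (a v.1 i)
      · simp only [cp, Sum.elim_inr]
        simpa using (Real.hasDerivAt_cos t).mul_const (a v.2 i)
    · intro t v
      have h1 := (((Real.hasDerivAt_sin t).const_mul (β ^ 2 / 2)).const_sub (1 / 4)).mul_const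
        (Q N v.1 v.2)
      exact h1
    · intro t v i
      have hs1 := Real.abs_sin_le_one t
      have hc1 := Real.abs_cos_le_one t
      have hpos : 0 ≤ (1 / 4 + β ^ 2 / 2) * D := by positivity
      rcases i with i | i
      · simp only [cp, Sum.elim_inl]
        have h1 : |a v.1 i + Real.sin t * a v.2 i| ≤ |a v.1 i| + |Real.sin t| * |a v.2 i| := by
          refine (abs_add_le _ _).trans ?_
          rw [abs_mul]
        have h2 : |Real.sin t| * |a v.2 i| ≤ 1 * |a v.2 i| := by gcongr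
        linarith [hAb v.1 i, hAb v.2 i]
      · simp only [cp, Sum.elim_inr]
        rw [abs_mul]
        have h2 : |Real.cos t| * |a v.2 i| ≤ 1 * |a v.2 i| := by gcongr
        linarith [hAb v.1 i, hAb v.2 i]
    · intro t v i
      have hs1 := Real.abs_sin_le_one t
      have hc1 := Real.abs_cos_le_one t
      have hpos : 0 ≤ (1 / 4 + β ^ 2 / 2) * D := by positivity
      rcases i with i | i
      · simp only [Sum.elim_inl]
        rw [abs_mul]
        have h2 : |Real.cos t| * |a v.2 i| ≤ 1 * |a v.2 i| := by gcongr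
        linarith [hAb v.1 i, hAb v.2 i]
      · simp only [Sum.elim_inr]
        rw [abs_mul, abs_neg]
        have h2 : |Real.sin t| * |a v.2 i| ≤ 1 * |a v.2 i| := by gcongr
        linarith [hAb v.1 i, hAb v.2 i]
    · intro t v
      rw [abs_mul]
      have hs1 := abs_le.1 (Real.abs_sin_le_one t)
      have h1 : |1 / 4 - β ^ 2 / 2 * Real.sin t| ≤ 1 / 4 + β ^ 2 / 2 := by
        have hb : 0 ≤ β ^ 2 / 2 := by positivity
        rw [abs_le]
        constructor <;> nlinarith
      calc _ ≤ (1 / 4 + β ^ 2 / 2) * D := mul_le_mul h1 (hDb v) (abs_nonneg _) (by positivity)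
        _ ≤ _ := by linarith
    · intro t v
      rw [abs_mul, abs_neg]
      have hc1 := abs_le.1 (Real.abs_cos_le_one t)
      have h1 : |β ^ 2 / 2 * Real.cos t| ≤ 1 / 4 + β ^ 2 / 2 := by
        have hb : 0 ≤ β ^ 2 / 2 := by positivity
        rw [abs_le]
        constructor <;> nlinarith
      calc _ ≤ (1 / 4 + β ^ 2 / 2) * D := mul_le_mul h1 (hDb v) (abs_nonneg _) (by positivity)
        _ ≤ _ := by linarith
    · intro t ht v w
      have hct : 0 ≤ Real.cos t := Real.cos_nonneg_of_mem_Icc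
        ⟨by linarith [ht.1, Real.pi_pos], ht.2.trans hθ1⟩
      rw [Fintype.sum_sum_type, Fintype.sum_sum_type]
      simp only [Sum.elim_inl, Sum.elim_inr, cp]
      have e1 : ∑ i, Real.cos t * a v.2 i * (a v.1 i + Real.sin t * a v.2 i) +
          ∑ i, -Real.sin t * a v.2 i * (Real.cos t * a v.2 i) =
          Real.cos t * ∑ i, a v.1 i * a v.2 i := by
        rw [← Finset.sum_add_distrib, Finset.mul_sum]
        exact Finset.sum_congr rfl fun i _ => by ring
      have e2 : ∑ i, Real.cos t * a v.2 i * (a w.1 i + Real.sin t * a w.2 i) +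
          ∑ i, -Real.sin t * a v.2 i * (Real.cos t * a w.2 i) =
          Real.cos t * ∑ i, a v.2 i * a w.1 i := by
        rw [← Finset.sum_add_distrib, Finset.mul_sum]
        exact Finset.sum_congr rfl fun i _ => by ring
      rw [e1, e2, ha, hN β N hNpos, hN β N hNpos]
      have h3 : 0 ≤ Real.cos t * (β ^ 2 / 2) * Q N v.2 w.1 :=
        mul_nonneg (mul_nonneg hct (by positivity)) (hQ0 _ _)
      nlinarith
  have hlow := lower hR a θ (1 / 4 - β ^ 2 / 2 * Real.sin θ) (Q N)
  have hup := hI β N hNpos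
  rw [← ha] at hup
  have hEF : EF β N = ∫ x, Ff a (fun _ => 0) x ∂(G (Fin N × Fin N)) := rfl
  set EQ := ∫ p, ∑ s, ∑ t, pf a (fun _ => 0) (p : (Fin N × Fin N → ℝ) × (Fin N × Fin N → ℝ)).1 s *
        pf a (fun _ => 0) (fun i => Real.sin θ * p.1 i + Real.cos θ * p.2 i) t * Q N s t
        ∂((G (Fin N × Fin N)).prod (G (Fin N × Fin N))) with hEQ
  have hEQ0 : 0 ≤ EQ := by
    refine integral_nonneg fun p => ?_
    refine Finset.sum_nonneg fun s _ => Finset.sum_nonneg fun t _ => ?_
    exact mul_nonneg (mul_nonneg (pf_nonneg _ _ _ _) (pf_nonneg _ _ _ _)) (hQ0 _ _)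
  have hmu : 1 / 8 ≤ 1 / 4 - β ^ 2 / 2 * Real.sin θ := by
    rw [hs]
    have : β ^ 2 * r ≤ 1 / 4 := by
      calc β ^ 2 * r ≤ β ^ 2 * (1 / (4 * β ^ 2)) := by gcongr
        _ = 1 / 4 := by field_simp
    linarith
  have hEQC : EQ ≤ 8 * C := by
    have h1 : (1 / 4 - β ^ 2 / 2 * Real.sin θ) * EQ ≤ C := by
      rw [hEF] at hup
      linarith
    nlinarith
  -- the pair functional
  have hP : Pair (mf a (fun _ => 0)) r = β ^ 2 / 2 * (EQ - 1) := by
    have hpt : ∀ x z : Fin N × Fin N → ℝ,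
        ∑ i, mf a (fun _ => 0) x i *
          mf a (fun _ => 0) (fun j => r * x j + Real.sqrt (1 - r ^ 2) * z j) i =
        β ^ 2 / 2 * ((∑ s, ∑ t, pf a (fun _ => 0) x s *
          pf a (fun _ => 0) (fun i => Real.sin θ * x i + Real.cos θ * z i) t * Q N s t) - 1) := by
      intro x z
      have hsq : Real.sqrt (1 - r ^ 2) = Real.cos θ := by
        rw [← hs]; exact cos_sq_sqrt θ hc
      rw [hsq, ← hs]
      set y : Fin N × Fin N → ℝ := fun j => Real.sin θ * x j + Real.cos θ * z j with hy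
      have h1 : ∑ i, mf a (fun _ => 0) x i * mf a (fun _ => 0) y i =
          ∑ s, ∑ t, pf a (fun _ => 0) x s * pf a (fun _ => 0) y t * ∑ i, a s i * a t i := by
        simp only [mf]
        have h2 : ∀ i, (∑ v, pf a (fun _ => 0) x v * a v i) * ∑ v, pf a (fun _ => 0) y v * a v i =
            ∑ s, ∑ t, pf a (fun _ => 0) x s * pf a (fun _ => 0) y t * (a s i * a t i) := by
          intro i
          rw [Finset.sum_mul_sum]
          exact Finset.sum_congr rfl fun s _ => Finset.sum_congr rfl fun t _ => by ring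
        rw [Finset.sum_congr rfl fun i _ => h2 i, Finset.sum_comm]
        refine Finset.sum_congr rfl fun s _ => ?_
        rw [Finset.sum_comm]
        refine Finset.sum_congr rfl fun t _ => ?_
        rw [Finset.mul_sum]
      rw [h1]
      have h4 : ∀ s t, pf a (fun _ => 0) x s * pf a (fun _ => 0) y t * ∑ i, a s i * a t i =
          β ^ 2 / 2 * (pf a (fun _ => 0) x s * pf a (fun _ => 0) y t * Q N s t) -
          β ^ 2 / 2 * (pf a (fun _ => 0) x s * pf a (fun _ => 0) y t) := by
        intro s t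
        have h5 : ∑ i, a s i * a t i = β ^ 2 / 2 * (Q N s t - 1) := hN β N hNpos s t
        rw [h5]; ring
      simp only [h4, Finset.sum_sub_distrib, ← Finset.mul_sum]
      rw [← Finset.sum_mul, pf_sum, pf_sum]
      ring
    have hmeas : ∀ s t, Integrable (fun p : (Fin N × Fin N → ℝ) × (Fin N × Fin N → ℝ) =>
        pf a (fun _ => 0) p.1 s *
        pf a (fun _ => 0) (fun i => Real.sin θ * p.1 i + Real.cos θ * p.2 i) t * Q N s t)
        ((G (Fin N × Fin N)).prod (G (Fin N × Fin N))) := by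
      intro s t
      refine Integrable.mul_const ?_ _
      have hm : Measurable fun p : (Fin N × Fin N → ℝ) × (Fin N × Fin N → ℝ) =>
          pf a (fun _ => 0) p.1 s *
          pf a (fun _ => 0) (fun i => Real.sin θ * p.1 i + Real.cos θ * p.2 i) t :=
        Measurable.mul ((pf_meas a (fun _ => 0) s).comp measurable_fst)
        ((pf_meas a (fun _ => 0) t).comp (mp_rot hR θ).measurable)
      refine Integrable.of_bound hm.aestronglyMeasurable 1 (Filter.Eventually.of_forall fun p => ?_)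
      rw [Real.norm_eq_abs, abs_of_nonneg (mul_nonneg (pf_nonneg _ _ _ _) (pf_nonneg _ _ _ _))]
      exact mul_le_one₀ (pf_le_one _ _ _ _) (pf_nonneg _ _ _ _) (pf_le_one _ _ _ _)
    have hI1 : Integrable (fun p : (Fin N × Fin N → ℝ) × (Fin N × Fin N → ℝ) =>
        ∑ s, ∑ t, pf a (fun _ => 0) p.1 s *
        pf a (fun _ => 0) (fun i => Real.sin θ * p.1 i + Real.cos θ * p.2 i) t * Q N s t)
        ((G (Fin N × Fin N)).prod (G (Fin N × Fin N))) :=
      integrable_finsetSum _ fun s _ => integrable_finsetSum _ fun t _ => hmeas s t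
    unfold Pair
    simp only [hpt]
    rw [← integral_prod (fun p : (Fin N × Fin N → ℝ) × (Fin N × Fin N → ℝ) =>
      β ^ 2 / 2 * ((∑ s, ∑ t, pf a (fun _ => 0) p.1 s *
          pf a (fun _ => 0) (fun i => Real.sin θ * p.1 i + Real.cos θ * p.2 i) t * Q N s t) - 1))
      ((hI1.sub (integrable_const _)).const_mul _), integral_const_mul,
      integral_sub hI1 (integrable_const _)]
    simp
    left
    rfl
  rw [hP]
  have : β ^ 2 / 2 * (EQ - 1) ≤ β ^ 2 / 2 * (8 * C) := by
    gcongr; linarith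
  linarith

end Pool.H92.SKChaos
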